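import Pool.Agent.Helper36.CV.StmtsR

set_option autoImplicit false

/-! MP_e5aeaf_mp: regular closedness of the sum. -/

namespace Pool.Agent.Helper53.CV.R21

open Pool.Agent.Helper36.CV
open Complex Filter Topology MeasureTheory Set Pointwise

theorem child {ε cK : ℝ} {K : Set ℝ} {ι : Type} {lo hi t : ι → ℝ} {g : Fin 3 → ι → ι}
    (h : IsKD ε cK K lo hi t g) (hε : 0 < ε) (hc : 1 ≤ cK) (hεc : ε * cK ≤ 1 / 16) (i : Fin 3)
    (j : ι) : lo j ≤ lo (g i j) ∧ hi (g i j) ≤ hi j ∧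
      hi (g i j) - lo (g i j) ≤ (hi j - lo j) / 4 := by
  have hL : 0 < hi j - lo j := sub_pos.2 (h.lt j)
  have hε1 : ε ≤ 1 / 16 := by nlinarith
  have e1 : cK * ε ^ 3 ≤ 1 / 16 * (1 / 256) := by
    have : cK * ε ^ 3 = (ε * cK) * ε ^ 2 := by ring
    rw [this]
    have : ε ^ 2 ≤ 1 / 256 := by nlinarith
    exact mul_le_mul hεc this (by positivity) (by norm_num)
  have e2 : cK * ε ^ 2 ≤ 1 / 16 * (1 / 16) := by
    have : cK * ε ^ 2 = (ε * cK) * ε := by ring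
    rw [this]
    exact mul_le_mul hεc hε1 hε.le (by norm_num)
  have e3 : cK * ε ^ 3 * (hi j - lo j) ≤ 1 / 4096 * (hi j - lo j) := by
    apply mul_le_mul_of_nonneg_right _ hL.le
    linarith
  have e4 : cK * ε ^ 2 * (hi j - lo j) ≤ 1 / 256 * (hi j - lo j) := by
    apply mul_le_mul_of_nonneg_right _ hL.le
    linarith
  have ht : -1 ≤ t j ∧ t j ≤ 1 := by
    rcases h.tv j with h1 | h1 | h1 <;> rw [h1] <;> norm_num
  have e5 : ε * (1 + 2 * ε * t j) ≤ 1 / 8 := by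
    have : 2 * ε * t j ≤ 1 / 8 := by nlinarith
    nlinarith
  have e6 : ε * (1 - 2 * ε * t j) ≤ 1 / 8 := by
    have : -(2 * ε * t j) ≤ 1 / 8 := by nlinarith
    nlinarith
  have e5' : ε * (1 + 2 * ε * t j) * (hi j - lo j) ≤ 1 / 8 * (hi j - lo j) :=
    mul_le_mul_of_nonneg_right e5 hL.le
  have e6' : ε * (1 - 2 * ε * t j) * (hi j - lo j) ≤ 1 / 8 * (hi j - lo j) :=
    mul_le_mul_of_nonneg_right e6 hL.le
  have e7 : 4 * ε ^ 2 * (hi j - lo j) ≤ 1 / 64 * (hi j - lo j) := by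
    apply mul_le_mul_of_nonneg_right _ hL.le
    nlinarith
  have e8 : |3 / 4 * t j * ε * (hi j - lo j)| ≤ 3 / 64 * (hi j - lo j) := by
    rw [abs_mul, abs_of_pos hL]
    apply mul_le_mul_of_nonneg_right _ hL.le
    rw [abs_le]
    constructor <;> nlinarith
  fin_cases i
  · have f1 := h.lL j
    have f2 := (abs_le.1 (h.nL j)).2
    have f3 := h.lt (g 0 j)
    change lo j ≤ lo (g 0 j) ∧ hi (g 0 j) ≤ hi j ∧ hi (g 0 j) - lo (g 0 j) ≤ (hi j - lo j) / 4
    rw [f1] at f2 ⊢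
    refine ⟨le_rfl, ?_, ?_⟩ <;> linarith
  · have f1 := abs_le.1 (h.cA j)
    have f2 := (abs_le.1 (h.nA j)).2
    have f3 := h.lt (g 1 j)
    have f4 := abs_le.1 e8
    change lo j ≤ lo (g 1 j) ∧ hi (g 1 j) ≤ hi j ∧ hi (g 1 j) - lo (g 1 j) ≤ (hi j - lo j) / 4
    refine ⟨?_, ?_, ?_⟩ <;> linarith
  · have f1 := h.hR j
    have f2 := (abs_le.1 (h.nR j)).2
    have f3 := h.lt (g 2 j)
    change lo j ≤ lo (g 2 j) ∧ hi (g 2 j) ≤ hi j ∧ hi (g 2 j) - lo (g 2 j) ≤ (hi j - lo j) / 4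
    rw [f1] at f2 ⊢
    refine ⟨?_, le_rfl, ?_⟩ <;> linarith

theorem good_sub {Hm Hp : ℝ} {C : Set ℝ} {cd : CD Hm Hp C} {ε l r l' r' : ℝ} (hε : 0 < ε)
    (hε1 : ε ≤ 1 / 16) (h : Good cd ε l r) (hlr : l < r) (h1 : l ≤ l') (h2 : r' ≤ r)
    (h3 : r' - l' ≤ (r - l) / 4) (h4 : l' < r') : Good cd ε l' r' := by
  have hE : 1 ≤ 1 / ε ^ 3 := by
    rw [le_div_iff₀ (by positivity)]
    have : ε ^ 3 ≤ 1 := pow_le_one₀ hε.le (by linarith)
    linarith
  have key : (r' - l') / ε ^ 3 + |(l' + r') / 2 - (l + r) / 2| ≤ (r - l) / ε ^ 3 := by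
    have e1 : (r' - l') / ε ^ 3 ≤ (r - l) / 4 / ε ^ 3 := by gcongr
    have e2 : |(l' + r') / 2 - (l + r) / 2| ≤ (r - l) / 2 := by
      rw [abs_le]
      constructor <;> linarith
    have e3 : (r - l) / 4 / ε ^ 3 = (r - l) / ε ^ 3 / 4 := by ring
    have e4 : (r - l) * 1 ≤ (r - l) * (1 / ε ^ 3) :=
      mul_le_mul_of_nonneg_left hE (by linarith)
    have e5 : (r - l) * (1 / ε ^ 3) = (r - l) / ε ^ 3 := by ring
    rw [e5] at e4
    rw [e3] at e1
    linarith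
  constructor
  · intro t ht
    apply h.inn
    have e1 : |t - (l + r) / 2| ≤ |t - (l' + r') / 2| + |(l' + r') / 2 - (l + r) / 2| :=
      abs_sub_le _ _ _
    linarith
  · intro W hW
    apply h.big
    obtain ⟨w1, w2⟩ := hW
    have e1 := abs_le.1 (le_refl |(l' + r') / 2 - (l + r) / 2|)
    constructor <;> linarith

theorem meets {Hm Hp : ℝ} {C : Set ℝ} {cd : CD Hm Hp C} (hP2 : ST_P2) (hHm : 0 < Hm) {ε l r : ℝ}
    (hε : 0 < ε) (hε1 : ε ≤ 1 / 16) (hlr : l < r) (hg : Good cd ε l r) (hp : PSt C ε l r) :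
    ∃ c ∈ C, l ≤ c ∧ c ≤ r := by
  by_contra hcon
  push Not at hcon
  have hE : 1 ≤ 1 / ε ^ 3 := by
    rw [le_div_iff₀ (by positivity)]
    have : ε ^ 3 ≤ 1 := pow_le_one₀ hε.le (by linarith)
    linarith
  have hm : (l + r) / 2 ∉ C := by
    intro h
    have := hcon _ h (by linarith)
    linarith
  have hN := hg.inn ((l + r) / 2) (by
    rw [sub_self, abs_zero]
    have : 0 < r - l := by linarith
    positivity)
  obtain ⟨-, h2, -⟩ := hP2 Hm Hp C cd hHm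
  obtain ⟨V, hV1, hV2⟩ := h2 _ hm hN.1 hN.2
  have ha : V.a < l := by
    by_contra h
    push Not at h
    have := hcon V.a V.ha h
    linarith
  have hb : r < V.b := by
    by_contra h
    push Not at h
    have := hcon V.b V.hb (by linarith)
    linarith
  apply hp V.a V.b ⟨V.lt, V.ha, V.hb, V.out⟩
  left
  have : 0 < ε * (r - l) := mul_pos hε (by linarith)
  constructor <;> linarith

theorem refl {ε cK : ℝ} {K : Set ℝ} {ι : Type} {lo hi t : ι → ℝ} {g : Fin 3 → ι → ι}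
    (h : IsKD ε cK K lo hi t g) (x : ℝ) : IsKD ε cK ((fun k => x - k) '' K) (fun j => x - hi j)
      (fun j => x - lo j) (fun j => -t j) (fun i => g i.rev) where
  lt j := by have := h.lt j; linarith
  tv j := by
    rcases h.tv j with h1 | h1 | h1 <;> rw [h1] <;> norm_num
  tc i j := by
    rw [h.tc]
    fin_cases i <;> norm_num [Fin.rev]
  lm j := ⟨hi j, h.hm j, rfl⟩
  hm j := ⟨lo j, h.lm j, rfl⟩
  lL j := by
    change x - hi (g 2 j) = x - hi j
    rw [h.hR]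
  hR j := by
    change x - lo (g 0 j) = x - lo j
    rw [h.lL]
  nL j := by
    have h1 := h.nR j
    change |(x - lo (g 2 j) - (x - hi (g 2 j))) - ε * (1 + 2 * ε * -t j) *
      (x - lo j - (x - hi j))| ≤ cK * ε ^ 3 * (x - lo j - (x - hi j))
    have e1 : (x - lo (g 2 j) - (x - hi (g 2 j))) - ε * (1 + 2 * ε * -t j) *
      (x - lo j - (x - hi j)) = (hi (g 2 j) - lo (g 2 j)) - ε * (1 - 2 * ε * t j) *
      (hi j - lo j) := by ring
    have e2 : x - lo j - (x - hi j) = hi j - lo j := by ring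
    rw [e1, e2]
    exact h1
  nR j := by
    have h1 := h.nL j
    change |(x - lo (g 0 j) - (x - hi (g 0 j))) - ε * (1 - 2 * ε * -t j) *
      (x - lo j - (x - hi j))| ≤ cK * ε ^ 3 * (x - lo j - (x - hi j))
    have e1 : (x - lo (g 0 j) - (x - hi (g 0 j))) - ε * (1 - 2 * ε * -t j) *
      (x - lo j - (x - hi j)) = (hi (g 0 j) - lo (g 0 j)) - ε * (1 + 2 * ε * t j) *
      (hi j - lo j) := by ring
    have e2 : x - lo j - (x - hi j) = hi j - lo j := by ring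
    rw [e1, e2]
    exact h1
  nA j := by
    have h1 := h.nA j
    change |(x - lo (g 1 j) - (x - hi (g 1 j))) - 4 * ε ^ 2 *
      (x - lo j - (x - hi j))| ≤ cK * ε ^ 3 * (x - lo j - (x - hi j))
    have e1 : (x - lo (g 1 j) - (x - hi (g 1 j))) - 4 * ε ^ 2 *
      (x - lo j - (x - hi j)) = (hi (g 1 j) - lo (g 1 j)) - 4 * ε ^ 2 * (hi j - lo j) := by ring
    have e2 : x - lo j - (x - hi j) = hi j - lo j := by ring
    rw [e1, e2]
    exact h1
  cA j := by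
    have h1 := h.cA j
    change |(x - lo (g 1 j) + (x - hi (g 1 j))) / 2 - (x - lo j + (x - hi j)) / 2 -
      3 / 4 * -t j * ε * (x - lo j - (x - hi j))| ≤ cK * ε ^ 2 * (x - lo j - (x - hi j))
    have e1 : (x - lo (g 1 j) + (x - hi (g 1 j))) / 2 - (x - lo j + (x - hi j)) / 2 -
      3 / 4 * -t j * ε * (x - lo j - (x - hi j)) =
      -((hi (g 1 j) + lo (g 1 j)) / 2 - (hi j + lo j) / 2 - 3 / 4 * t j * ε * (hi j - lo j)) := by
      ring
    have e2 : x - lo j - (x - hi j) = hi j - lo j := by ring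
    rw [e1, e2, abs_neg]
    exact h1
  cv := by
    rintro _ ⟨k, hk, rfl⟩ j h1 h2
    obtain ⟨i, h3, h4⟩ := h.cv k hk j (by linarith) (by linarith)
    refine ⟨i.rev, ?_, ?_⟩
    · change x - hi (g i.rev.rev j) ≤ x - k
      rw [Fin.rev_rev]
      linarith
    · change x - k ≤ x - lo (g i.rev.rev j)
      rw [Fin.rev_rev]
      linarith
  fn := by
    rintro _ ⟨k, hk, rfl⟩ δ hδ
    obtain ⟨j, h1, h2, h3⟩ := h.fn k hk δ hδ
    exact ⟨j, by linarith, by linarith, by linarith⟩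

/-- the limit of the nested stable intervals -/
theorem limit {Hm Hp : ℝ} {C : Set ℝ} {cd : CD Hm Hp C} (hP2 : ST_P2) (hHm : 0 < Hm) {ε cK : ℝ}
    (hε : 0 < ε) (hc : 1 ≤ cK) (hεc : ε * cK ≤ 1 / 16) {K : Set ℝ} {ι : Type} {lo hi t : ι → ℝ}
    {g : Fin 3 → ι → ι} (h : IsKD ε cK K lo hi t g) (hC : IsClosed C) (hK : IsClosed K)
    (hdes : ∀ j : ι, Good cd ε (lo j) (hi j) → PSt C ε (lo j) (hi j) →
      ∃ i : Fin 3, PSt C ε (lo (g i j)) (hi (g i j)) ∨
        ∃ i' : Fin 3, PSt C ε (lo (g i' (g i j))) (hi (g i' (g i j)))) (j : ι)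
    (hg : Good cd ε (lo j) (hi j)) (hp : PSt C ε (lo j) (hi j)) : ∃ z ∈ C, z ∈ K := by
  have hε1 : ε ≤ 1 / 16 := by nlinarith
  have hseq : ∀ n : ℕ, ∃ j' : ι, Good cd ε (lo j') (hi j') ∧ PSt C ε (lo j') (hi j') ∧
      lo j ≤ lo j' ∧ hi j' ≤ hi j ∧ hi j' - lo j' ≤ (1 / 4) ^ n * (hi j - lo j) := by
    intro n
    induction n with
    | zero => exact ⟨j, hg, hp, le_rfl, le_rfl, by rw [pow_zero, one_mul]⟩
    | succ n ih =>
      obtain ⟨j', g1, p1, a1, a2, a3⟩ := ih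
      obtain ⟨i, hi1⟩ := hdes j' g1 p1
      obtain ⟨b1, b2, b3⟩ := child h hε hc hεc i j'
      have g2 := good_sub hε hε1 g1 (h.lt j') b1 b2 b3 (h.lt _)
      rcases hi1 with p2 | ⟨i', p2⟩
      · refine ⟨g i j', g2, p2, a1.trans b1, b2.trans a2, ?_⟩
        rw [pow_succ]
        linarith
      · obtain ⟨d1, d2, d3⟩ := child h hε hc hεc i' (g i j')
        have g3 := good_sub hε hε1 g2 (h.lt _) d1 d2 d3 (h.lt _)
        refine ⟨g i' (g i j'), g3, p2, (a1.trans b1).trans d1, d2.trans (b2.trans a2), ?_⟩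
        rw [pow_succ]
        have := h.lt (g i j')
        linarith
  by_contra hcon
  push Not at hcon
  have hcomp : IsCompact (C ∩ Icc (lo j) (hi j)) := isCompact_Icc.inter_left hC
  have hdis : Disjoint (C ∩ Icc (lo j) (hi j)) K := by
    rw [Set.disjoint_left]
    intro z hz hz'
    exact hcon z hz.1 hz'
  obtain ⟨δ, hδ, hd⟩ := Metric.exists_pos_forall_lt_edist hcomp hK hdis
  have hδ' : (0 : ℝ) < δ := hδ
  have hL : 0 < hi j - lo j := sub_pos.2 (h.lt j)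
  obtain ⟨n, hn⟩ := exists_pow_lt_of_lt_one (div_pos hδ' hL) (by norm_num : (1 / 4 : ℝ) < 1)
  obtain ⟨j', g1, p1, a1, a2, a3⟩ := hseq n
  obtain ⟨c, hc1, hc2, hc3⟩ := meets hP2 hHm hε hε1 (h.lt j') g1 p1
  have h1 := hd c ⟨hc1, by linarith, by linarith⟩ (lo j') (h.lm j')
  rw [edist_dist, Real.dist_eq] at h1
  have h2 : |c - lo j'| ≤ δ := by
    rw [abs_of_nonneg (by linarith)]
    rw [lt_div_iff₀ hL] at hn
    linarith
  have h3 : ENNReal.ofReal |c - lo j'| ≤ (δ : ENNReal) := by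
    rw [← ENNReal.ofReal_coe_nnreal]
    exact ENNReal.ofReal_le_ofReal h2
  exact absurd h1 (not_lt.2 h3)

theorem st_R21 (hP2 : ST_P2) (hR19 : ST_R19) (hR20 : ST_R20) : ST_R21 := by
  intro cK hc
  obtain ⟨ε1, hε1, h19⟩ := hR19 cK hc
  obtain ⟨ε2, hε2, h20⟩ := hR20
  refine ⟨min (min ε1 ε2) (1 / (16 * cK)), by positivity, ?_⟩
  intro ε Hm Hp C cd hPar hε0 hAr K ι lo hi t g hKD hC hK
  have hεa : ε ≤ ε1 := hε0.trans ((min_le_left _ _).trans (min_le_left _ _))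
  have hεb : ε ≤ ε2 := hε0.trans ((min_le_left _ _).trans (min_le_right _ _))
  have hεc : ε * cK ≤ 1 / 16 := by
    have h1 : ε ≤ 1 / (16 * cK) := hε0.trans (min_le_right _ _)
    rw [le_div_iff₀ (by positivity)] at h1
    linarith
  have hε : 0 < ε := hPar.1
  rintro s ⟨c0, hc0, k0, hk0, rfl⟩
  rw [Metric.mem_closure_iff]
  intro δ hδ
  obtain ⟨y, hy, ρ0, hρ0, hst⟩ := h20 ε Hm Hp C cd hPar hεb c0 hc0 (δ / 3) (by linarith)
  obtain ⟨j, hj1, hj2, hj3⟩ := hKD.fn k0 hk0 (min ρ0 (δ / 3)) (lt_min hρ0 (by linarith))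
  have hj4 : hi j - lo j < ρ0 := hj3.trans_le (min_le_left _ _)
  have hj5 : hi j - lo j < δ / 3 := hj3.trans_le (min_le_right _ _)
  have hL : 0 < hi j - lo j := sub_pos.2 (hKD.lt j)
  refine ⟨y + (lo j + hi j) / 2, ?_, ?_⟩
  · rw [mem_interior]
    refine ⟨Metric.ball (y + (lo j + hi j) / 2) ((hi j - lo j) / 100), ?_, Metric.isOpen_ball,
      Metric.mem_ball_self (by linarith)⟩
    intro x hx
    rw [Metric.mem_ball, Real.dist_eq] at hx
    have hK' : IsClosed ((fun k => x - k) '' K) :=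
      (Homeomorph.subLeft x).isClosedMap K hK
    have hx1 := hst (x - hi j) (x - lo j) (by linarith) (by linarith) (by
      have e1 : (x - hi j + (x - lo j)) / 2 - y = x - (y + (lo j + hi j) / 2) := by ring
      have e2 : x - lo j - (x - hi j) = hi j - lo j := by ring
      rw [e1, e2]
      exact hx.le)
    obtain ⟨z, hz1, k, hk, hz2⟩ := limit hP2 hPar.2.1 hε hc hεc (refl hKD x) hC hK'
      (fun j' hg hp => h19 ε Hm Hp C cd hPar hεa hAr ((fun k => x - k) '' K) ι _ _ _ _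
        (refl hKD x) j' hg hp) j hx1.1 hx1.2
    refine ⟨z, hz1, k, hk, ?_⟩
    change z + k = x
    rw [← hz2]
    ring
  · rw [Real.dist_eq]
    have e1 : c0 + k0 - (y + (lo j + hi j) / 2) = (c0 - y) + (k0 - (lo j + hi j) / 2) := by ring
    change |c0 + k0 - (y + (lo j + hi j) / 2)| < δ
    rw [e1]
    have e2 := abs_add_le (c0 - y) (k0 - (lo j + hi j) / 2)
    have e3 : |c0 - y| < δ / 3 := by rw [abs_sub_comm]; exact hy
    have e4 : |k0 - (lo j + hi j) / 2| ≤ (hi j - lo j) / 2 := by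
      rw [abs_le]
      constructor <;> linarith
    linarith

end Pool.Agent.Helper53.CV.R21
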