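import Pool.Agent.Helper36.CV.StmtsW

set_option autoImplicit false

namespace Pool.Agent.Helper36.CV

open Real

lemma t11_one_add_le_cosh {s : ℝ} (hs : 0 ≤ s) : 1 + s ^ 2 / 2 ≤ cosh s := by
  have h1 : cosh s = cosh (2 * (s / 2)) := by ring_nf
  have h2 : s / 2 ≤ sinh (s / 2) := Real.self_le_sinh_iff.2 (by positivity)
  rw [h1, Real.cosh_two_mul, Real.cosh_sq]
  nlinarith [sq_nonneg (s / 2)]

/-- adding `s` to the argument adds at least `d` to the hyperbolic cosine. -/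
lemma t11_cosh_add {u s d : ℝ} (hu : 0 ≤ u) (hs : 0 ≤ s) (hd : d ≤ s ^ 2 / 2) :
    cosh u + d ≤ cosh (u + s) := by
  have h1 : 1 + s ^ 2 / 2 ≤ cosh s := t11_one_add_le_cosh hs
  have h2 : 1 ≤ cosh u := Real.one_le_cosh u
  have h3 : 0 ≤ sinh u := Real.sinh_nonneg_iff.2 hu
  have h4 : 0 ≤ sinh s := Real.sinh_nonneg_iff.2 hs
  rw [Real.cosh_add]
  have h5 : 1 ≤ cosh s := Real.one_le_cosh s
  nlinarith [mul_nonneg h3 h4, mul_nonneg (sub_nonneg.2 h2) (sub_nonneg.2 h5)]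

lemma t11_le_of_cosh {a b : ℝ} (hb : 0 ≤ b) (h : cosh a ≤ cosh b) : a ≤ b := by
  have := Real.cosh_le_cosh.1 h
  rw [abs_of_nonneg hb] at this
  exact (le_abs_self a).trans this

/-- square root with an added square. -/
lemma t11_abs_le {p q d : ℝ} (hq : 0 ≤ q) (hd : 0 ≤ d) (h : p ^ 2 = q ^ 2 + d ^ 2) :
    |p| ≤ q + d := by
  apply abs_le_of_sq_le_sq _ (by positivity)
  nlinarith [mul_nonneg hq hd]

lemma t11_A {a b c d : ℝ} (ha : |a| ≤ 1) (hb : |b| ≤ 1) (hd : 0 ≤ d)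
    (h : (c - a * b) ^ 2 = (1 - a ^ 2) * (1 - b ^ 2) + d ^ 2) : |c| ≤ 1 + d := by
  have ha2 : a ^ 2 ≤ 1 := by nlinarith [sq_abs a, abs_nonneg a]
  have hb2 : b ^ 2 ≤ 1 := by nlinarith [sq_abs b, abs_nonneg b]
  have hp : 0 ≤ (1 - a ^ 2) * (1 - b ^ 2) := mul_nonneg (by linarith) (by linarith)
  set q := √((1 - a ^ 2) * (1 - b ^ 2)) with hq
  have hq0 : 0 ≤ q := Real.sqrt_nonneg _
  have hqs : q ^ 2 = (1 - a ^ 2) * (1 - b ^ 2) := Real.sq_sqrt hp
  have h1 : |c - a * b| ≤ q + d := t11_abs_le hq0 hd (by rw [hqs]; exact h)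
  have h2 : |a * b| + q ≤ 1 := by
    have h3 : q ≤ 1 - |a * b| := by
      have h4 : |a * b| ≤ 1 := by rw [abs_mul]; nlinarith [abs_nonneg a, abs_nonneg b]
      apply le_of_sq_le_sq _ (by linarith)
      have h5 : |a * b| ^ 2 = a ^ 2 * b ^ 2 := by rw [sq_abs]; ring
      have h6 : 2 * |a * b| ≤ a ^ 2 + b ^ 2 := by
        rw [abs_mul]; nlinarith [sq_nonneg (|a| - |b|), sq_abs a, sq_abs b]
      nlinarith
    linarith
  have h3 : |c| ≤ |c - a * b| + |a * b| := by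
    have := abs_add_le (c - a * b) (a * b)
    simpa using this
  linarith

lemma t11_B {a b c d : ℝ} (ha : 1 ≤ |a|) (hb : 1 ≤ |b|) (hc : |c| ≤ 1) (hd : 0 ≤ d)
    (h : (c - a * b) ^ 2 = (a ^ 2 - 1) * (b ^ 2 - 1) + d ^ 2) :
    |a| * |b| ≤ 1 + √(a ^ 2 - 1) * √(b ^ 2 - 1) + d := by
  have ha2 : 1 ≤ a ^ 2 := by nlinarith [sq_abs a, abs_nonneg a]
  have hb2 : 1 ≤ b ^ 2 := by nlinarith [sq_abs b, abs_nonneg b]
  have h1 : |c - a * b| ≤ √(a ^ 2 - 1) * √(b ^ 2 - 1) + d := by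
    apply t11_abs_le (by positivity) hd
    rw [mul_pow, Real.sq_sqrt (by linarith), Real.sq_sqrt (by linarith)]
    exact h
  have h3 : |a * b| ≤ |c - a * b| + |c| := by
    have := abs_sub_abs_le_abs_sub (a * b) c
    rw [abs_sub_comm c (a * b)]
    linarith
  rw [← abs_mul]
  linarith

lemma t11_C {a b c d : ℝ} (ha : 1 ≤ |a|) (hb : 1 ≤ |b|) (hd : 0 ≤ d)
    (h : (c - a * b) ^ 2 = (a ^ 2 - 1) * (b ^ 2 - 1) + d ^ 2) :
    |c| ≤ |a| * |b| + √(a ^ 2 - 1) * √(b ^ 2 - 1) + d := by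
  have ha2 : 1 ≤ a ^ 2 := by nlinarith [sq_abs a, abs_nonneg a]
  have hb2 : 1 ≤ b ^ 2 := by nlinarith [sq_abs b, abs_nonneg b]
  have h1 : |c - a * b| ≤ √(a ^ 2 - 1) * √(b ^ 2 - 1) + d := by
    apply t11_abs_le (by positivity) hd
    rw [mul_pow, Real.sq_sqrt (by linarith), Real.sq_sqrt (by linarith)]
    exact h
  have h3 : |c| ≤ |c - a * b| + |a * b| := by
    have := abs_add_le (c - a * b) (a * b)
    simpa using this
  rw [abs_mul] at h3
  linarith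

/-- the height function `arcosh (max 1 |x|)`. -/
noncomputable def t11_ta (x : ℝ) : ℝ := arcosh (max 1 |x|)

lemma t11_ta_nonneg (x : ℝ) : 0 ≤ t11_ta x := Real.arcosh_nonneg (le_max_left _ _)

lemma t11_cosh_ta (x : ℝ) : cosh (t11_ta x) = max 1 |x| := Real.cosh_arcosh (le_max_left _ _)

lemma t11_ta_of_le {x : ℝ} (h : |x| ≤ 1) : t11_ta x = 0 := by
  unfold t11_ta; rw [max_eq_left h]; exact Real.arcosh_zero

lemma t11_cosh_ta_of_ge {x : ℝ} (h : 1 ≤ |x|) : cosh (t11_ta x) = |x| := by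
  rw [t11_cosh_ta, max_eq_right h]

lemma t11_sinh_ta_of_ge {x : ℝ} (h : 1 ≤ |x|) : sinh (t11_ta x) = √(x ^ 2 - 1) := by
  unfold t11_ta
  rw [Real.sinh_arcosh (le_max_left _ _), max_eq_right h, sq_abs]

lemma t11_ta_le {x d s : ℝ} (hs : 0 ≤ s) (hd0 : 0 ≤ d) (hd : d ≤ s ^ 2 / 2)
    (h : |x| ≤ 1 + d) : t11_ta x ≤ s := by
  apply t11_le_of_cosh hs
  rw [t11_cosh_ta]
  have := t11_one_add_le_cosh hs
  apply max_le <;> linarith

/-- two heights with `|a| |b| ≤ 1 + sinh sinh + d` are close. -/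
lemma t11_close {a b d s : ℝ} (hs : 0 ≤ s) (hd : d ≤ s ^ 2 / 2)
    (ha : 1 ≤ |a|) (hb : 1 ≤ |b|)
    (h : |a| * |b| ≤ 1 + √(a ^ 2 - 1) * √(b ^ 2 - 1) + d) :
    |t11_ta a - t11_ta b| ≤ s := by
  have h1 : cosh (t11_ta a - t11_ta b) ≤ cosh s := by
    rw [Real.cosh_sub, t11_cosh_ta_of_ge ha, t11_cosh_ta_of_ge hb, t11_sinh_ta_of_ge ha,
      t11_sinh_ta_of_ge hb]
    have := t11_one_add_le_cosh hs
    linarith
  have h2 := Real.cosh_le_cosh.1 h1
  rwa [abs_of_nonneg hs] at h2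

/-- the whole estimate for `|a|, |b| ≥ 1`, upper side. -/
lemma t11_upper {a b c d s : ℝ} (hs : 0 ≤ s) (hd0 : 0 ≤ d) (hd : d ≤ s ^ 2 / 2)
    (ha : 1 ≤ |a|) (hb : 1 ≤ |b|)
    (h : (c - a * b) ^ 2 = (a ^ 2 - 1) * (b ^ 2 - 1) + d ^ 2) :
    t11_ta c ≤ t11_ta a + t11_ta b + s := by
  have h1 := t11_C ha hb hd0 h
  have hu : 0 ≤ t11_ta a + t11_ta b := add_nonneg (t11_ta_nonneg _) (t11_ta_nonneg _)
  have h2 := t11_cosh_add hu hs hd
  apply t11_le_of_cosh (by linarith)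
  refine le_trans ?_ h2
  rw [Real.cosh_add, t11_cosh_ta_of_ge ha, t11_cosh_ta_of_ge hb, t11_sinh_ta_of_ge ha,
      t11_sinh_ta_of_ge hb, t11_cosh_ta]
  apply max_le _ h1
  have : 1 ≤ |a| * |b| := by nlinarith
  have h3 : 0 ≤ √(a ^ 2 - 1) * √(b ^ 2 - 1) := by positivity
  linarith

/-- `max 1 |.|` close gives heights close. -/
lemma t11_lip {a b d s : ℝ} (hs : 0 ≤ s) (hd : d ≤ s ^ 2 / 2) (hab : |a - b| ≤ d) :
    t11_ta a ≤ t11_ta b + s := by
  have h2 := t11_cosh_add (t11_ta_nonneg b) hs hd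
  apply t11_le_of_cosh (by linarith [t11_ta_nonneg b])
  refine le_trans ?_ h2
  rw [t11_cosh_ta, t11_cosh_ta]
  have h0 : 0 ≤ d := (abs_nonneg _).trans hab
  have h1 : |a| ≤ |b| + d := by
    have := abs_sub_abs_le_abs_sub a b
    linarith
  apply max_le
  · linarith [le_max_left 1 |b|]
  · linarith [le_max_right 1 |b|]

theorem st_T11 (h1 : ST_T1) (h8 : ST_T8) : ST_T11 := by
  intro l hl0 hl n E
  set d : ℝ := |l| / 2 with hd
  set s : ℝ := √|l| with hs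
  have hs0 : 0 ≤ s := Real.sqrt_nonneg _
  have hss : s ^ 2 = |l| := Real.sq_sqrt (abs_nonneg _)
  have hd0 : 0 ≤ d := by positivity
  have hds : d ≤ s ^ 2 / 2 := by rw [hss]
  have hd2 : d ^ 2 = l ^ 2 / 4 := by rw [hd, div_pow, sq_abs]; norm_num
  have hI := (h1 l E n).1
  rw [← hd2] at hI
  set x := X l n E with hx
  set y := X l (n + 1) E with hy
  set z := X l (n + 2) E with hz
  have hzz : (z - x * y) ^ 2 = (x ^ 2 - 1) * (y ^ 2 - 1) + d ^ 2 := by linear_combination hI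
  have hzz' : (z - x * y) ^ 2 = (1 - x ^ 2) * (1 - y ^ 2) + d ^ 2 := by linear_combination hI
  have hyy : (y - x * z) ^ 2 = (x ^ 2 - 1) * (z ^ 2 - 1) + d ^ 2 := by linear_combination hI
  have hyy' : (y - x * z) ^ 2 = (1 - x ^ 2) * (1 - z ^ 2) + d ^ 2 := by linear_combination hI
  have hxx : (x - y * z) ^ 2 = (y ^ 2 - 1) * (z ^ 2 - 1) + d ^ 2 := by linear_combination hI
  have hxx' : (x - y * z) ^ 2 = (1 - y ^ 2) * (1 - z ^ 2) + d ^ 2 := by linear_combination hI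
  have hu0 := t11_ta_nonneg x
  have hv0 := t11_ta_nonneg y
  have hw0 := t11_ta_nonneg z
  have hsecond : |x| ≤ 1 → |z| ≤ 1 → t11_ta y ≤ s := by
    intro hx1 hz1
    exact t11_ta_le hs0 hd0 hds (t11_A hx1 hz1 hd0 hyy')
  refine ⟨?_, hsecond⟩
  change |t11_ta z - t11_ta y - t11_ta x| ≤ s
  rcases Nat.eq_zero_or_pos n with hn | hn
  · -- `x = 1`
    subst hn
    have hx1 : x = 1 := by rw [hx]; rfl
    have hta : t11_ta x = 0 := t11_ta_of_le (by rw [hx1]; norm_num)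
    have hzy : |z - y| ≤ d := by
      apply abs_le_of_sq_le_sq _ hd0
      rw [hx1] at hzz
      nlinarith
    have h3 := t11_lip hs0 hds hzy
    have h4 := t11_lip hs0 hds (by rw [abs_sub_comm]; exact hzy : |y - z| ≤ d)
    rw [hta, abs_le]
    constructor <;> linarith
  · rcases le_total |x| 1 with hx1 | hx1 <;> rcases le_total |y| 1 with hy1 | hy1
    · -- both elliptic
      rw [t11_ta_of_le hx1, t11_ta_of_le hy1]
      have := t11_ta_le hs0 hd0 hds (t11_A hx1 hy1 hd0 hzz')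
      rw [abs_le]; constructor <;> linarith
    · -- `y` hyperbolic
      rw [t11_ta_of_le hx1]
      rcases le_total |z| 1 with hz1 | hz1
      · rw [t11_ta_of_le hz1]
        have := hsecond hx1 hz1
        rw [abs_le]; constructor <;> linarith
      · have := t11_close hs0 hds hy1 hz1 (t11_B hy1 hz1 hx1 hd0 hxx)
        rw [abs_le] at this ⊢
        constructor <;> linarith [this.1, this.2]
    · -- `x` hyperbolic
      rw [t11_ta_of_le hy1]
      rcases le_total |z| 1 with hz1 | hz1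
      · rw [t11_ta_of_le hz1]
        have := t11_ta_le hs0 hd0 hds (t11_A hy1 hz1 hd0 hxx')
        rw [abs_le]; constructor <;> linarith
      · have := t11_close hs0 hds hx1 hz1 (t11_B hx1 hz1 hy1 hd0 hyy)
        rw [abs_le] at this ⊢
        constructor <;> linarith [this.1, this.2]
    · -- both hyperbolic
      have h3 := (h8 l hl0 hl n E hn hx1 hy1 n le_rfl).2.2.1
      change t11_ta y + t11_ta x ≤ t11_ta z at h3
      have h4 := t11_upper hs0 hd0 hds hx1 hy1 hzz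
      rw [abs_le]; constructor <;> linarith

end Pool.Agent.Helper36.CV
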