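import Pool.Agent.Helper36.CV.StmtsW

set_option autoImplicit false

namespace Pool.Agent.Helper36.CV

open Complex Filter Topology Polynomial

noncomputable section

lemma w1_real (l : ℝ) (n : ℕ) (x : ℝ) : XC l n x = X l n x := by
  induction n using Nat.strong_induction_on with
  | _ n ih =>
    match n with
    | 0 => simp [XC, X]
    | 1 => simp [XC, X]
    | 2 => simp [XC, X]
    | (m + 3) =>
      rw [XC, X, ih (m + 2) (by omega), ih (m + 1) (by omega), ih m (by omega)]
      push_cast
      ring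

/-- the trace polynomials. -/
def w1_P (l : ℝ) : ℕ → ℂ[X]
  | 0 => 1
  | 1 => Polynomial.C (1 / 2) * Polynomial.X
  | 2 => Polynomial.C (1 / 2) * (Polynomial.X - Polynomial.C (l : ℂ))
  | (n + 3) => Polynomial.C 2 * (w1_P l (n + 2) * w1_P l (n + 1)) - w1_P l n

lemma w1_eval (l : ℝ) (n : ℕ) (z : ℂ) : (w1_P l n).eval z = XC l n z := by
  induction n using Nat.strong_induction_on with
  | _ n ih =>
    match n with
    | 0 => simp [XC, w1_P]
    | 1 => simp [XC, w1_P]; ring
    | 2 => simp [XC, w1_P]; ring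
    | (m + 3) =>
      rw [XC, w1_P, Polynomial.eval_sub, Polynomial.eval_mul, Polynomial.eval_mul,
        ih (m + 2) (by omega), ih (m + 1) (by omega), ih m (by omega), Polynomial.eval_C]
      ring

lemma w1_deg (l : ℝ) (n : ℕ) : (w1_P l n).natDegree ≤ Nat.fib n := by
  induction n using Nat.strong_induction_on with
  | _ n ih =>
    match n with
    | 0 => simp [w1_P]
    | 1 =>
      rw [w1_P]
      refine (Polynomial.natDegree_C_mul_le _ _).trans ?_
      simp
    | 2 =>
      rw [w1_P]
      refine (Polynomial.natDegree_C_mul_le _ _).trans ?_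
      simp
    | (m + 3) =>
      rw [w1_P]
      refine (Polynomial.natDegree_sub_le _ _).trans ?_
      apply max_le
      · refine (Polynomial.natDegree_C_mul_le _ _).trans ?_
        refine (Polynomial.natDegree_mul_le).trans ?_
        have h1 := ih (m + 2) (by omega)
        have h2 := ih (m + 1) (by omega)
        have h3 : Nat.fib (m + 3) = Nat.fib (m + 1) + Nat.fib (m + 2) := Nat.fib_add_two
        omega
      · exact (ih m (by omega)).trans (Nat.fib_mono (by omega))

/-- a point of the open interval between consecutive multiples of `π` with cosine `c`. -/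
lemma w1_cos (c : ℝ) (hc : |c| < 1) (k : ℕ) :
    ∃ θ : ℝ, Real.pi * k < θ ∧ θ < Real.pi * (k + 1) ∧ Real.cos θ = c := by
  have hc' := abs_lt.1 hc
  have hpi := Real.pi_pos
  have h0 : 0 < Real.arccos c := Real.arccos_pos.2 hc'.2
  have h1 : Real.arccos c < Real.pi := by
    rw [← Real.arccos_neg_one]
    exact Real.arccos_lt_arccos le_rfl hc'.1 hc'.2.le
  rcases Nat.even_or_odd k with hk | hk
  · obtain ⟨j, rfl⟩ := hk
    refine ⟨Real.pi * ((j + j : ℕ) : ℝ) + Real.arccos c, by linarith, by linarith, ?_⟩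
    have : Real.pi * ((j + j : ℕ) : ℝ) + Real.arccos c = Real.arccos c + (j : ℕ) * (2 * Real.pi) := by
      push_cast; ring
    rw [this, Real.cos_add_nat_mul_two_pi, Real.cos_arccos hc'.1.le hc'.2.le]
  · obtain ⟨j, rfl⟩ := hk
    refine ⟨Real.pi * (((2 * j + 1 : ℕ) : ℝ) + 1) - Real.arccos c, by linarith, by linarith, ?_⟩
    have : Real.pi * (((2 * j + 1 : ℕ) : ℝ) + 1) - Real.arccos c
        = ((j + 1 : ℕ) : ℝ) * (2 * Real.pi) - Real.arccos c := by
      push_cast; ring
    rw [this, Real.cos_nat_mul_two_pi_sub, Real.cos_arccos hc'.1.le hc'.2.le]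

lemma w1_clamp {x c : ℝ} (hc : |c| < 1) (h : clamp x = c) : x = c := by
  unfold clamp at h
  have hc' := abs_lt.1 hc
  rcases le_total x 1 with h1 | h1
  · rw [min_eq_right h1] at h
    rcases le_total x (-1) with h2 | h2
    · rw [max_eq_left h2] at h; linarith
    · rw [max_eq_right h2] at h; exact h
  · rw [min_eq_left h1, max_eq_right (by norm_num)] at h
    linarith

/-- the real roots. -/
lemma w1_roots (h6 : ST_T6) (h9 : ST_T9) {l : ℝ} (hl0 : 0 < |l|) (hl : |l| ≤ 1 / 100)
    (n : ℕ) {c : ℝ} (hc : |c| < 1) :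
    ∃ f : Fin (Nat.fib n) → ℝ, Function.Injective f ∧ ∀ k, X l n (f k) = c := by
  have key : ∀ k : Fin (Nat.fib n), ∃ E : ℝ, Real.pi * (k : ℕ) < Th l n E ∧
      Th l n E < Real.pi * ((k : ℕ) + 1) ∧ X l n E = c := by
    intro k
    obtain ⟨θ, h1, h2, h3⟩ := w1_cos c hc k
    have hcont := (h6 l hl0 hl n).1
    have ha := (h9 l hl0 hl n (2 + |l|)).1 le_rfl
    have hb := (h9 l hl0 hl n (-(2 + |l|))).2.1 le_rfl
    have hk : ((k : ℕ) : ℝ) + 1 ≤ (Nat.fib n : ℝ) := by exact_mod_cast k.2
    have hpi := Real.pi_pos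
    have hab : -(2 + |l|) ≤ 2 + |l| := by linarith
    have hmem : θ ∈ Set.Icc (Th l n (2 + |l|)) (Th l n (-(2 + |l|))) := by
      rw [ha, hb]
      refine ⟨?_, ?_⟩
      · have : 0 ≤ Real.pi * (k : ℕ) := by positivity
        linarith
      · have := mul_le_mul_of_nonneg_left hk hpi.le
        linarith
    obtain ⟨E, -, hE⟩ := intermediate_value_Icc' hab hcont.continuousOn hmem
    refine ⟨E, by rw [hE]; exact h1, by rw [hE]; exact h2, ?_⟩
    have := ((h6 l hl0 hl n).2.2 E).2.2
    rw [hE, h3] at this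
    exact w1_clamp hc this.symm
  choose f hf1 hf2 hf3 using key
  refine ⟨f, ?_, hf3⟩
  intro i j hij
  have hpi := Real.pi_pos
  have a1 := hf1 i
  have a2 := hf2 i
  have b1 := hf1 j
  have b2 := hf2 j
  rw [hij] at a1 a2
  have c1 : Real.pi * (i : ℕ) < Real.pi * ((j : ℕ) + 1) := a1.trans b2
  have c2 : Real.pi * (j : ℕ) < Real.pi * ((i : ℕ) + 1) := b1.trans a2
  have d1 := lt_of_mul_lt_mul_left c1 hpi.le
  have d2 := lt_of_mul_lt_mul_left c2 hpi.le
  have e1 : (i : ℕ) < (j : ℕ) + 1 := by exact_mod_cast d1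
  have e2 : (j : ℕ) < (i : ℕ) + 1 := by exact_mod_cast d2
  apply Fin.ext
  omega

lemma w1_ne_zero (h9 : ST_T9) {l : ℝ} (hl0 : 0 < |l|) (hl : |l| ≤ 1 / 100)
    (n : ℕ) {c : ℝ} (hc : |c| < 1) : w1_P l n - Polynomial.C (c : ℂ) ≠ 0 := by
  intro h
  have h1 : 1 ≤ |X l n (2 + |l|)| := by
    apply (h9 l hl0 hl n (2 + |l|)).2.2
    exact le_abs_self _
  have h2 : (w1_P l n - Polynomial.C (c : ℂ)).eval (((2 + |l| : ℝ)) : ℂ) = 0 := by rw [h]; simp
  rw [Polynomial.eval_sub, Polynomial.eval_C, w1_eval, w1_real] at h2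
  have h3 : X l n (2 + |l|) = c := by
    have := sub_eq_zero.1 h2
    exact_mod_cast this
  rw [h3] at h1
  linarith

/-- the case `|c| < 1`. -/
lemma w1_main (h6 : ST_T6) (h9 : ST_T9) {l : ℝ} (hl0 : 0 < |l|) (hl : |l| ≤ 1 / 100)
    (n : ℕ) {c : ℝ} (hc : |c| < 1) {z : ℂ} (hz : z.im ≠ 0) : XC l n z ≠ c := by
  intro hzc
  obtain ⟨f, hf, hfc⟩ := w1_roots h6 h9 hl0 hl n hc
  apply w1_ne_zero h9 hl0 hl n hc
  let g : Option (Fin (Nat.fib n)) → ℂ := fun o => o.elim z (fun k => (f k : ℂ))
  have hg : Function.Injective g := by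
    intro a b hab
    cases a with
    | none =>
      cases b with
      | none => rfl
      | some b =>
        exfalso
        apply hz
        have : z = (f b : ℂ) := hab
        rw [this]; simp
    | some a =>
      cases b with
      | none =>
        exfalso
        apply hz
        have : (f a : ℂ) = z := hab
        rw [← this]; simp
      | some b =>
        have h1 : (f a : ℂ) = (f b : ℂ) := hab
        have h2 : f a = f b := by exact_mod_cast h1
        rw [hf h2]
  refine Polynomial.eq_zero_of_natDegree_lt_card_of_eval_eq_zero _ hg ?_ ?_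
  · intro o
    cases o with
    | none =>
      change (w1_P l n - Polynomial.C (c : ℂ)).eval z = 0
      rw [Polynomial.eval_sub, Polynomial.eval_C, w1_eval, hzc, sub_self]
    | some k =>
      change (w1_P l n - Polynomial.C (c : ℂ)).eval ((f k : ℝ) : ℂ) = 0
      rw [Polynomial.eval_sub, Polynomial.eval_C, w1_eval, w1_real, hfc k, sub_self]
  · have h1 : (w1_P l n - Polynomial.C (c : ℂ)).natDegree ≤ Nat.fib n := by
      refine (Polynomial.natDegree_sub_le _ _).trans ?_
      rw [Polynomial.natDegree_C]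
      exact max_le (w1_deg l n) (Nat.zero_le _)
    rw [Fintype.card_option, Fintype.card_fin]
    omega

theorem st_W1 (h6 : ST_T6) (h9 : ST_T9) : ST_W1 := by
  intro l hl0 hl n hn
  refine ⟨w1_real l n, ?_⟩
  intro z hz c hc hzc
  rcases hc.lt_or_eq with hc1 | hc1
  · exact w1_main h6 h9 hl0 hl n hc1 hz hzc
  · -- open mapping
    have han : AnalyticAt ℂ (fun w => XC l n w) z := by
      have h1 : (fun w => XC l n w) = fun w => (w1_P l n).eval w := by
        funext w; rw [w1_eval]
      rw [h1]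
      exact ((w1_P l n).differentiable).analyticAt z
    rcases han.eventually_constant_or_nhds_le_map_nhds with h | h
    · -- locally constant
      have h0 : w1_P l n - Polynomial.C (c : ℂ) = 0 := by
        apply Polynomial.eq_zero_of_infinite_isRoot
        have h2 : {w | XC l n w = XC l n z} ∈ 𝓝 z := h
        have h3 : ({w | XC l n w = XC l n z} : Set ℂ).Infinite := infinite_of_mem_nhds z h2
        refine h3.mono ?_
        intro w hw
        change (w1_P l n - Polynomial.C (c : ℂ)).eval w = 0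
        rw [Polynomial.eval_sub, Polynomial.eval_C, w1_eval]
        have hw' : XC l n w = XC l n z := hw
        rw [hw', hzc, sub_self]
      -- then `X_n` takes only the value `c`, but it takes the value `0`
      obtain ⟨f, -, hf⟩ := w1_roots h6 h9 hl0 hl n (c := 0) (by norm_num)
      have hpos : 0 < Nat.fib n := Nat.fib_pos.2 hn
      have h4 := hf ⟨0, hpos⟩
      have h5 : (w1_P l n - Polynomial.C (c : ℂ)).eval ((f ⟨0, hpos⟩ : ℝ) : ℂ) = 0 := by
        rw [h0]; simp
      rw [Polynomial.eval_sub, Polynomial.eval_C, w1_eval, w1_real, h4] at h5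
      have h6 : c = 0 := by
        have : (c : ℂ) = 0 := by simpa using h5
        exact_mod_cast this
      rw [h6] at hc1
      norm_num at hc1
    · have hopen : {w : ℂ | w.im ≠ 0} ∈ 𝓝 z := by
        have : IsOpen {w : ℂ | w.im ≠ 0} := isOpen_ne_fun Complex.continuous_im continuous_const
        exact this.mem_nhds hz
      have h2 : (fun w => XC l n w) '' {w : ℂ | w.im ≠ 0} ∈ 𝓝 (XC l n z) := by
        apply h
        exact Filter.image_mem_map hopen
      rw [hzc] at h2
      have h3 : Tendsto (fun t : ℝ => ((c * (1 - t) : ℝ) : ℂ)) (𝓝[>] 0) (𝓝 (c : ℂ)) := by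
        have : ContinuousAt (fun t : ℝ => ((c * (1 - t) : ℝ) : ℂ)) 0 := by fun_prop
        have h4 := this.tendsto
        simp only [sub_zero, mul_one] at h4
        exact h4.mono_left nhdsWithin_le_nhds
      have h4 : (fun t : ℝ => ((c * (1 - t) : ℝ) : ℂ)) ⁻¹'
          ((fun w => XC l n w) '' {w : ℂ | w.im ≠ 0}) ∈ 𝓝[>] (0 : ℝ) := h3 h2
      have h5 : Set.Ioo (0 : ℝ) 1 ∈ 𝓝[>] (0 : ℝ) := Ioo_mem_nhdsGT (by norm_num)
      obtain ⟨t, ht1, ht2⟩ := Filter.nonempty_of_mem (Filter.inter_mem h4 h5)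
      obtain ⟨w, hw1, hw2⟩ := ht1
      refine w1_main h6 h9 hl0 hl n (c := c * (1 - t)) ?_ hw1 hw2
      rw [abs_mul, hc1, one_mul, abs_lt]
      constructor <;> linarith [ht2.1, ht2.2]

end

end Pool.Agent.Helper36.CV
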